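import Mathlib

set_option autoImplicit false

namespace Pool.Agent.H.MP_339e98_lc

/-- MTL-algebras: bounded integral commutative residuated lattices with prelinearity. -/
class MTL (A : Type) extends Lattice A, BoundedOrder A, CommMonoid A where
  imp : A → A → A
  one_eq_top : (1 : A) = ⊤
  adj : ∀ x y z : A, x * y ≤ z ↔ x ≤ imp y z
  prelin : ∀ x y : A, imp x y ⊔ imp y x = ⊤

/-- Propositional formulas. -/
inductive Fm : Type
  | var : ℕ → Fm
  | bot : Fm
  | mul : Fm → Fm → Fm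
  | imp : Fm → Fm → Fm
  | inf : Fm → Fm → Fm
  | sup : Fm → Fm → Fm

/-- Value of a formula under a valuation. -/
def eval {A : Type} [MTL A] (v : ℕ → A) : Fm → A
  | Fm.var n => v n
  | Fm.bot => ⊥
  | Fm.mul p q => eval v p * eval v q
  | Fm.imp p q => MTL.imp (eval v p) (eval v q)
  | Fm.inf p q => eval v p ⊓ eval v q
  | Fm.sup p q => eval v p ⊔ eval v q

/-- Tautologies of an algebra. -/
def Taut (A : Type) [MTL A] (p : Fm) : Prop := ∀ v : ℕ → A, eval v p = ⊤

/-- IMTL-algebras. -/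
def IsInv (A : Type) [MTL A] : Prop := ∀ x : A, MTL.imp (MTL.imp x ⊥) ⊥ = x

/-- Product-MTL-algebras. -/
def IsPi (A : Type) [MTL A] : Prop :=
  (∀ x y z : A, MTL.imp (MTL.imp (MTL.imp z ⊥) ⊥)
    (MTL.imp (MTL.imp (x * z) (y * z)) (MTL.imp x y)) = ⊤) ∧
  ∀ x : A, MTL.imp (x ⊓ MTL.imp x ⊥) ⊥ = ⊤

/-- Single chain completeness of the logic whose algebras are the MTL-algebras with L. -/
def SCC (L : (A : Type) → [MTL A] → Prop) : Prop :=
  ∃ (A : Type) (_ : MTL A), L A ∧ (∀ x y : A, x ≤ y ∨ y ≤ x) ∧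
    ∀ p : Fm, (∀ (B : Type) [MTL B], L B → Taut B p) ↔ Taut A p

end Pool.Agent.H.MP_339e98_lc
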