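import Mathlib
import Pool.Agent.H.MP_339e98_lc.Defs

set_option autoImplicit false

namespace Pool.Agent.H.MP_339e98_lc

open MTL

section Basic

variable {A : Type} [MTL A]

theorem imp_mul_le (x y : A) : imp x y * x ≤ y := (adj _ _ _).2 le_rfl

theorem mul_le_l {x y : A} (h : x ≤ y) (z : A) : x * z ≤ y * z :=
  (adj _ _ _).2 (h.trans ((adj _ _ _).1 le_rfl))

theorem mul_le_r {x y : A} (h : x ≤ y) (z : A) : z * x ≤ z * y := by
  rw [mul_comm z, mul_comm z]; exact mul_le_l h z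

theorem mul_mono {x y z w : A} (h : x ≤ y) (h' : z ≤ w) : x * z ≤ y * w :=
  (mul_le_l h z).trans (mul_le_r h' y)

theorem pow_mono {x y : A} (h : x ≤ y) (n : ℕ) : x ^ n ≤ y ^ n := by
  induction n with
  | zero => simp
  | succ n ih => rw [pow_succ, pow_succ]; exact mul_mono ih h

theorem le_one' (x : A) : x ≤ 1 := one_eq_top (A := A) ▸ le_top

theorem mul_le_left (x y : A) : x * y ≤ x := by simpa using mul_le_r (le_one' y) x

theorem mul_le_right (x y : A) : x * y ≤ y := by simpa using mul_le_l (le_one' x) y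

theorem imp_eq_top {x y : A} : imp x y = ⊤ ↔ x ≤ y := by
  rw [← top_le_iff, ← adj, ← one_eq_top, one_mul]

theorem nilp (ht : ∀ x y : A, x ≤ y ∨ y ≤ x) (d p f q g : A)
    (h1 : d ≤ imp (p * p * f) ⊥) (h2 : d ≤ imp (imp f ⊥) f) (h3 : d ≤ imp (imp (p * p * p) ⊥) p)
    (h4 : d ≤ imp (p * p * p * p) ⊥) (h5 : d ≤ imp (imp (q * g) ⊥) q)
    (h6 : d ≤ imp (q * q * q) ⊥) (h7 : d ≤ imp (g * g) ⊥) : d ^ 57 ≤ ⊥ := by
  rw [← adj] at h1 h2 h3 h4 h5 h6 h7
  have a1 : d * (d * g) ≤ f := by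
    rcases ht g f with h | h
    · exact (mul_le_right _ _).trans ((mul_le_right _ _).trans h)
    · refine (mul_le_r ((adj _ _ _).1 ?_) d).trans h2
      rw [mul_assoc]
      exact (mul_le_r (mul_le_r h g) d).trans h7
  have a2 : d ^ 4 * p ≤ q := by
    rcases ht p q with h | h
    · exact (mul_le_right _ _).trans h
    · rw [show d ^ 4 * p = d * (d ^ 3 * p) by rw [← mul_assoc, ← pow_succ']]
      refine (mul_le_r ((adj _ _ _).1 ?_) d).trans h5
      rw [show d ^ 3 * p * (q * g) = d * (p * q * (d * (d * g))) by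
        simp only [pow_succ, pow_zero, one_mul]; ac_rfl]
      exact (mul_le_r (mul_mono (mul_le_r h p) a1) d).trans h1
  have a3 : d ^ 14 ≤ p := by
    rw [pow_succ']
    refine (mul_le_r ((adj _ _ _).1 ?_) d).trans h3
    rw [show d ^ 13 * (p * p * p) = d * (d ^ 4 * p * (d ^ 4 * p) * (d ^ 4 * p)) by
        simp only [pow_succ, pow_zero, one_mul]; ac_rfl]
    exact (mul_le_r (mul_mono (mul_mono a2 a2) a2) d).trans h6
  rw [show d ^ 57 = d * (d ^ 14 * d ^ 14 * d ^ 14 * d ^ 14) by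
    rw [← pow_add, ← pow_add, ← pow_add, ← pow_succ']]
  exact (mul_le_r (mul_mono (mul_mono (mul_mono a3 a3) a3) a3) d).trans h4

def pw (p : Fm) : ℕ → Fm
  | 0 => Fm.imp Fm.bot Fm.bot
  | n + 1 => Fm.mul (pw p n) p

theorem eval_pw (v : ℕ → A) (p : Fm) (n : ℕ) : eval v (pw p n) = eval v p ^ n := by
  induction n with
  | zero => simp only [pw, eval, pow_zero, one_eq_top]; exact imp_eq_top.2 le_rfl
  | succ n ih => simp only [pw, eval, ih, pow_succ]

end Basic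

open Fm in
def DD : Fm := inf (inf (imp (mul (mul (var 0) (var 0)) (var 1)) bot) (imp (imp (var 1) bot) (var 1)))
  (inf (imp (imp (mul (mul (var 0) (var 0)) (var 0)) bot) (var 0))
    (imp (mul (mul (mul (var 0) (var 0)) (var 0)) (var 0)) bot))

open Fm in
def EE : Fm := inf (inf (imp (imp (mul (var 0) (var 1)) bot) (var 0))
  (imp (mul (mul (var 0) (var 0)) (var 0)) bot)) (imp (mul (var 1) (var 1)) bot)

theorem either (A : Type) [MTL A] (ht : ∀ x y : A, x ≤ y ∨ y ≤ x) :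
    Taut A (Fm.imp (pw DD 57) Fm.bot) ∨ Taut A (Fm.imp (pw EE 57) Fm.bot) := by
  by_contra h
  simp only [Taut, eval, imp_eq_top, eval_pw, not_or, not_forall] at h
  obtain ⟨⟨v, hv⟩, w, hw⟩ := h
  have key : ∀ d, d ≤ eval v DD → d ≤ eval w EE → d ^ 57 ≤ ⊥ := by
    intro d h1 h2
    simp only [DD, EE, eval, le_inf_iff] at h1 h2
    exact nilp ht d _ _ _ _ h1.1.1 h1.1.2 h1.2.1 h1.2.2 h2.1.1 h2.1.2 h2.2
  rcases ht (eval v DD) (eval w EE) with h | h
  · exact hv (key _ le_rfl h)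
  · exact hw (key _ h le_rfl)

@[reducible] def mk5 (m i : Fin 5 → Fin 5 → Fin 5) (h1 : ∀ a b c, m (m a b) c = m a (m b c))
    (h2 : ∀ a b, m a b = m b a) (h3 : ∀ a, m 4 a = a) (h4 : ∀ x y z, m x y ≤ z ↔ x ≤ i y z)
    (h5 : ∀ x y, i x y ⊔ i y x = ⊤) : MTL (Fin 5) where
  toLattice := inferInstance
  toBoundedOrder := inferInstance
  mul := m
  mul_assoc := h1
  mul_comm := h2
  one := 4
  one_mul := h3
  mul_one := fun a => (h2 a 4).trans (h3 a)
  npow := @npowRec _ ⟨4⟩ ⟨m⟩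
  imp := i
  one_eq_top := rfl
  adj := h4
  prelin := h5

@[reducible] def L5 : MTL (Fin 5) := mk5
  ![![0, 0, 0, 0, 0], ![0, 0, 0, 0, 1], ![0, 0, 0, 1, 2], ![0, 0, 1, 2, 3], ![0, 1, 2, 3, 4]]
  ![![4, 4, 4, 4, 4], ![3, 4, 4, 4, 4], ![2, 3, 4, 4, 4], ![1, 2, 3, 4, 4], ![0, 1, 2, 3, 4]]
  (by decide) (by decide) (by decide) (by decide) (by decide)

@[reducible] def A5 : MTL (Fin 5) := mk5
  ![![0, 0, 0, 0, 0], ![0, 0, 0, 0, 1], ![0, 0, 0, 1, 2], ![0, 0, 1, 1, 3], ![0, 1, 2, 3, 4]]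
  ![![4, 4, 4, 4, 4], ![3, 4, 4, 4, 4], ![2, 3, 4, 4, 4], ![1, 3, 3, 4, 4], ![0, 1, 2, 3, 4]]
  (by decide) (by decide) (by decide) (by decide) (by decide)

theorem not_scc (L : (A : Type) → [MTL A] → Prop) (h1 : @L _ L5) (h2 : @L _ A5) : ¬ SCC L := by
  rintro ⟨A, _, -, ht, h⟩
  rcases either A ht with h' | h'
  · have := @(h _).2 h' _ L5 h1 (fun n => if n = 0 then 3 else 2)
    revert this
    decide +kernel
  · have := @(h _).2 h' _ A5 h2 (fun n => if n = 0 then 3 else 2)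
    revert this
    decide +kernel

theorem L5_inv : @IsInv _ L5 := by unfold IsInv; decide

theorem A5_inv : @IsInv _ A5 := by unfold IsInv; decide

end Pool.Agent.H.MP_339e98_lc
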