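import Mathlib
import Pool.Agent.H.MP_339e98_lc.Neg

set_option autoImplicit false

namespace Pool.Agent.H.MP_339e98_lc

open MTL

@[reducible] def ofChain (A : Type) [LinearOrder A] [BoundedOrder A] [CommMonoid A] (i : A → A → A)
    (h1 : (1 : A) = ⊤) (h2 : ∀ x y z : A, x * y ≤ z ↔ x ≤ i y z) : MTL A where
  imp := i
  one_eq_top := h1
  adj := h2
  prelin := fun x y => by
    rcases le_total x y with h | h
    · rw [top_le_iff.1 ((h2 ⊤ x y).1 (by rw [← h1, one_mul]; exact h)), top_sup_eq]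
    · rw [top_le_iff.1 ((h2 ⊤ y x).1 (by rw [← h1, one_mul]; exact h)), sup_top_eq]

theorem eval_hom {A B : Type} [MTL A] [MTL B] (e : A → B) (h0 : e ⊥ = ⊥)
    (h1 : ∀ x y, e (x * y) = e x * e y) (h2 : ∀ x y, e (imp x y) = imp (e x) (e y))
    (h3 : ∀ x y, e (x ⊓ y) = e x ⊓ e y) (h4 : ∀ x y, e (x ⊔ y) = e x ⊔ e y) (v : ℕ → A) (p : Fm) :
    eval (e ∘ v) p = e (eval v p) := by
  induction p <;> simp [eval, *]

section Quot

variable {B : Type} [MTL B]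

structure IsFil (F : Set B) : Prop where
  top : ⊤ ∈ F
  up : ∀ {x y}, x ∈ F → x ≤ y → y ∈ F
  mul : ∀ {x y}, x ∈ F → y ∈ F → x * y ∈ F

theorem mul_sup_le {x y z w : B} (h1 : x * y ≤ w) (h2 : x * z ≤ w) : x * (y ⊔ z) ≤ w := by
  rw [mul_comm, adj] at *
  exact sup_le h1 h2

theorem pow_sup {p q : B} (h : p ⊔ q = ⊤) (n : ℕ) : p ^ n ⊔ q = ⊤ := by
  induction n with
  | zero => simp [one_eq_top]
  | succ n ih =>
    rw [← top_le_iff, ← one_eq_top, ← mul_one (1 : B), one_eq_top]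
    nth_rewrite 1 [← ih]
    rw [← h]
    refine mul_sup_le ?_ ((mul_le_right _ _).trans le_sup_right)
    rw [mul_comm]
    exact mul_sup_le (by rw [← pow_succ']; exact le_sup_left) ((mul_le_right _ _).trans le_sup_right)

theorem exists_prime (a : B) (ha : a ≠ ⊤) :
    ∃ F : Set B, IsFil F ∧ a ∉ F ∧ ∀ x y, imp x y ∈ F ∨ imp y x ∈ F := by
  obtain ⟨F, -, hF⟩ := zorn_subset_nonempty {F : Set B | IsFil F ∧ a ∉ F} (fun c hc hch ⟨G, hG⟩ =>
    ⟨⋃₀ c, ⟨⟨⟨G, hG, (hc hG).1.top⟩, fun ⟨H, hH, hx⟩ h => ⟨H, hH, (hc hH).1.up hx h⟩,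
      fun ⟨H, hH, hx⟩ ⟨K, hK, hy⟩ => by
        rcases hch.total hH hK with h | h
        · exact ⟨K, hK, (hc hK).1.mul (h hx) hy⟩
        · exact ⟨H, hH, (hc hH).1.mul hx (h hy)⟩⟩, fun ⟨H, hH, hx⟩ => (hc hH).2 hx⟩,
      fun H hH => Set.subset_sUnion_of_mem hH⟩) {⊤}
      ⟨⟨rfl, fun hx h => top_le_iff.1 (hx ▸ h), fun hx hy => by
        rw [hx, hy, ← one_eq_top, one_mul]; rfl⟩, ha⟩
  have gen : ∀ p, p ∉ F → ∃ f ∈ F, ∃ n : ℕ, f * p ^ n ≤ a := by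
    intro p hp
    by_contra hn
    refine hp (hF.2 (y := {w | ∃ f ∈ F, ∃ n : ℕ, f * p ^ n ≤ w}) ⟨⟨⟨⊤, hF.1.1.top, 0, le_top⟩,
      fun ⟨f, hf, n, h⟩ h' => ⟨f, hf, n, h.trans h'⟩, fun ⟨f, hf, n, h⟩ ⟨g, hg, m, h'⟩ =>
        ⟨f * g, hF.1.1.mul hf hg, n + m, ?_⟩⟩, hn⟩ (fun f hf => ⟨f, hf, 0, by simp⟩)
      ⟨⊤, hF.1.1.top, 1, by rw [← one_eq_top]; simp⟩)
    rw [pow_add, mul_mul_mul_comm]
    exact mul_mono h h'
  refine ⟨F, hF.1.1, hF.1.2, fun x y => ?_⟩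
  by_contra h
  obtain ⟨f, hf, n, h1⟩ := gen _ (not_or.1 h).1
  obtain ⟨g, hg, m, h2⟩ := gen _ (not_or.1 h).2
  refine hF.1.2 (hF.1.1.up (hF.1.1.mul hf hg) ?_)
  have e := pow_sup ((sup_comm _ _).trans (pow_sup (prelin x y) n)) m
  rw [← mul_one (f * g), one_eq_top, ← e]
  exact mul_sup_le ((mul_le_l (mul_le_right _ _) _).trans h2) ((mul_le_l (mul_le_left _ _) _).trans h1)

def Qt (s : Setoid B) : Type := Quotient s

theorem quot_chain (F : Set B) (hF : IsFil F) (hl : ∀ x y, imp x y ∈ F ∨ imp y x ∈ F) :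
    ∃ (C : Type) (_ : MTL C) (e : B → C), (∀ x y : C, x ≤ y ∨ y ≤ x) ∧ Function.Surjective e ∧
      (∀ x, e x = ⊤ ↔ x ∈ F) ∧ e ⊥ = ⊥ ∧ (∀ x y, e (x * y) = e x * e y) ∧
      (∀ x y, e (imp x y) = imp (e x) (e y)) ∧ (∀ x y, e (x ⊓ y) = e x ⊓ e y) ∧
      ∀ x y, e (x ⊔ y) = e x ⊔ e y := by
  classical
  let r : B → B → Prop := fun x y => ∃ f ∈ F, f * x ≤ y
  have r_iff : ∀ x y, r x y ↔ imp x y ∈ F := fun x y =>
    ⟨fun ⟨f, hf, h⟩ => hF.up hf ((adj _ _ _).1 h), fun h => ⟨_, h, imp_mul_le _ _⟩⟩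
  have rle : ∀ {x y}, x ≤ y → r x y := fun h => ⟨⊤, hF.top, by rw [← one_eq_top, one_mul]; exact h⟩
  have rtr : ∀ {x y z}, r x y → r y z → r x z := fun ⟨f, hf, h⟩ ⟨g, hg, h'⟩ =>
    ⟨g * f, hF.mul hg hf, by rw [mul_assoc]; exact (mul_le_r h g).trans h'⟩
  have rmul : ∀ {x y z w}, r x y → r z w → r (x * z) (y * w) := fun ⟨f, hf, h⟩ ⟨g, hg, h'⟩ =>
    ⟨f * g, hF.mul hf hg, by rw [mul_mul_mul_comm]; exact mul_mono h h'⟩
  have radj : ∀ {x y z}, r (x * y) z ↔ r x (imp y z) := by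
    intro x y z
    simp only [r, ← adj, mul_assoc]
  have rimp : ∀ {x y z w}, r y x → r z w → r (imp x z) (imp y w) := fun h h' =>
    radj.1 (rtr (rtr (rmul (rle le_rfl) h) (rle (imp_mul_le _ _))) h')
  let s : Setoid B := ⟨fun x y => r x y ∧ r y x, fun _ => ⟨rle le_rfl, rle le_rfl⟩, And.symm,
    fun h h' => ⟨rtr h.1 h'.1, rtr h'.2 h.2⟩⟩
  let le' : Qt s → Qt s → Prop := Quotient.lift₂ r (fun _ _ _ _ h h' =>
    propext ⟨fun k => rtr (rtr h.2 k) h'.1, fun k => rtr (rtr h.1 k) h'.2⟩)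
  let mk : B → Qt s := Quotient.mk s
  have tot : ∀ x y : Qt s, le' x y ∨ le' y x := Quotient.ind₂ (fun x y =>
    (hl x y).imp (r_iff x y).2 (r_iff y x).2)
  let lo : LinearOrder (Qt s) :=
    { le := le'
      le_refl := Quotient.ind (fun _ => rle le_rfl)
      le_trans := fun a b c => Quotient.inductionOn₃ a b c (fun _ _ _ => rtr)
      le_antisymm := Quotient.ind₂ (fun _ _ h h' => Quotient.sound ⟨h, h'⟩)
      le_total := tot
      toDecidableLE := Classical.decRel _ }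
  let bo : BoundedOrder (Qt s) :=
    { top := mk ⊤, le_top := Quotient.ind (fun _ => rle le_top)
      bot := mk ⊥, bot_le := Quotient.ind (fun _ => rle bot_le) }
  let cm : CommMonoid (Qt s) :=
    { mul := Quotient.map₂ (· * ·) (fun _ _ h _ _ h' => ⟨rmul h.1 h'.1, rmul h.2 h'.2⟩)
      mul_assoc := fun a b c => Quotient.inductionOn₃ a b c
        (fun x y z => congrArg mk (mul_assoc x y z))
      mul_comm := Quotient.ind₂ (fun x y => congrArg mk (mul_comm x y))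
      one := mk 1
      one_mul := Quotient.ind (fun x => congrArg mk (one_mul x))
      mul_one := Quotient.ind (fun x => congrArg mk (mul_one x)) }
  have mono : Monotone mk := fun _ _ h => rle h
  refine ⟨Qt s, ofChain _ (Quotient.map₂ imp
    (fun _ _ h _ _ h' => ⟨rimp h.2 h'.1, rimp h.1 h'.2⟩)) (congrArg mk one_eq_top)
    (fun a b c => Quotient.inductionOn₃ a b c (fun _ _ _ => radj)), mk, tot,
    Quotient.mk_surjective, fun x => ?_, rfl, fun _ _ => rfl, fun _ _ => rfl, fun x y => ?_,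
    fun x y => ?_⟩
  · refine top_le_iff.symm.trans ⟨fun ⟨f, hf, h⟩ => hF.up hf ?_, fun h => ⟨x, h, mul_le_left _ _⟩⟩
    rwa [← one_eq_top, mul_one] at h
  · refine le_antisymm (le_inf (mono inf_le_left) (mono inf_le_right)) ?_
    rcases tot (mk x) (mk y) with ⟨f, hf, h⟩ | ⟨f, hf, h⟩
    · exact inf_le_left.trans (show r _ _ from ⟨f, hf, le_inf (mul_le_right _ _) h⟩)
    · exact inf_le_right.trans (show r _ _ from ⟨f, hf, le_inf h (mul_le_right _ _)⟩)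
  · refine le_antisymm ?_ (sup_le (mono le_sup_left) (mono le_sup_right))
    rcases tot (mk x) (mk y) with ⟨f, hf, h⟩ | ⟨f, hf, h⟩
    · exact le_trans (show r _ _ from ⟨f, hf, mul_sup_le h (mul_le_right _ _)⟩) le_sup_right
    · exact le_trans (show r _ _ from ⟨f, hf, mul_sup_le (mul_le_right _ _) h⟩) le_sup_left

theorem chain_of_not_taut (hB : IsPi B) (p : Fm) (hp : ¬ Taut B p) :
    ∃ (C : Type) (_ : MTL C), IsPi C ∧ (∀ x y : C, x ≤ y ∨ y ≤ x) ∧ ¬ Taut C p := by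
  obtain ⟨v, hv⟩ := not_forall.1 hp
  obtain ⟨F, hF, ha, hl⟩ := exists_prime _ hv
  obtain ⟨C, _, e, ht, hs, h, h0, h1, h2, h3, h4⟩ := quot_chain F hF hl
  refine ⟨C, _, ⟨fun x y z => ?_, fun x => ?_⟩, ht, fun hc => ha ((h _).1 ?_)⟩
  · obtain ⟨x, rfl⟩ := hs x
    obtain ⟨y, rfl⟩ := hs y
    obtain ⟨z, rfl⟩ := hs z
    simp only [← h0, ← h1, ← h2, hB.1, h, hF.top]
  · obtain ⟨x, rfl⟩ := hs x
    simp only [← h0, ← h3, ← h2, hB.2, h, hF.top]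
  · rw [← eval_hom e h0 h1 h2 h3 h4]; exact hc _

end Quot

end Pool.Agent.H.MP_339e98_lc
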