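import Mathlib
import Pool.Agent.H.MP_339e98_lc.Pos

set_option autoImplicit false

namespace Pool.Agent.H.MP_339e98_lc

open MTL

theorem bot_mul' {A : Type} [MTL A] (x : A) : ⊥ * x = ⊥ := le_bot_iff.1 (mul_le_left _ _)

theorem cancel_of_pi {A : Type} [MTL A] (h : IsPi A) (ht : ∀ x y : A, x ≤ y ∨ y ≤ x)
    (x y z : A) (hz : z ≠ ⊥) (hle : x * z ≤ y * z) : x ≤ y := by
  have h1 : imp z ⊥ = ⊥ := by
    have := le_bot_iff.1 (imp_eq_top.1 (h.2 z))
    rcases ht z (imp z ⊥) with k | k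
    · exact absurd (by rwa [inf_eq_left.2 k] at this) hz
    · rwa [inf_eq_right.2 k] at this
  have h2 := h.1 x y z
  rw [h1, imp_eq_top.2 (le_refl (⊥ : A)), imp_eq_top, top_le_iff, imp_eq_top, imp_eq_top.2 hle,
    top_le_iff, imp_eq_top] at h2
  exact h2

theorem pi_of_cancel {A : Type} [MTL A]
    (h : ∀ x y z : A, z ≠ ⊥ → x * z ≤ y * z → x ≤ y) : IsPi A := by
  refine ⟨fun x y z => ?_, fun x => ?_⟩
  · rw [imp_eq_top]
    by_cases hz : z = ⊥
    · have := imp_mul_le (imp z ⊥) (⊥ : A)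
      rw [show imp z ⊥ = ⊤ from imp_eq_top.2 hz.le, ← one_eq_top] at this ⊢
      rw [mul_one] at this
      exact this.trans bot_le
    · refine le_trans le_top (le_of_eq (imp_eq_top.2 ((adj _ _ _).1 (h _ _ z hz ?_))).symm)
      rw [mul_assoc]; exact imp_mul_le _ _
  · rw [imp_eq_top]
    by_cases hx : x = ⊥
    · exact inf_le_left.trans hx.le
    · exact inf_le_right.trans (h _ _ x hx ((imp_mul_le _ _).trans bot_le))

section Lexi

variable {I : Type} [LinearOrder I] [WellFoundedLT I] (C : I → Type) [∀ i, MTL (C i)]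

class Good : Prop where
  tot : ∀ i (x y : C i), x ≤ y ∨ y ≤ x
  can : ∀ i (x y z : C i), z ≠ ⊥ → x * z ≤ y * z → x ≤ y
  nt : ∀ i, (⊤ : C i) ≠ ⊥

variable [hC : Good C]

theorem Good.lt_or_le (i : I) (x y : C i) : x < y ∨ y ≤ x := by
  rcases hC.tot i x y with h | h
  · exact (lt_or_eq_of_le h).imp id (fun e => e.ge)
  · exact Or.inr h

theorem Good.nz (i : I) {x y : C i} (hx : x ≠ ⊥) (hy : y ≠ ⊥) : x * y ≠ ⊥ := fun h =>
  hx (le_bot_iff.1 (hC.can i x ⊥ y hy (h.le.trans bot_le)))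

@[ext] structure LD where
  v : ∀ i, C i
  h : (∀ i, v i ≠ ⊥) ∨ ∀ i, v i = ⊥

noncomputable instance : LinearOrder (LD C) :=
  { PartialOrder.lift (fun x : LD C => toLex x.v) (fun _ _ h => LD.ext h) with
    le_total := fun x y => by
      let lo : ∀ i, LinearOrder (C i) := fun i =>
        @Lattice.toLinearOrder _ _ (Classical.decEq _) (Classical.decRel _) (Classical.decRel _)
          ⟨hC.tot i⟩
      exact le_total (α := Lex (∀ i, C i)) (toLex x.v) (toLex y.v)
    toDecidableLE := Classical.decRel _ }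

variable {C}

theorem LD.lt_iff (x y : LD C) : x < y ↔ ∃ i, (∀ j < i, x.v j = y.v j) ∧ x.v i < y.v i := Iff.rfl

theorem LD.le_of {x y : LD C} (h : ∀ i, x.v i ≤ y.v i) : x ≤ y := Pi.toLex_monotone h

instance : BoundedOrder (LD C) where
  top := ⟨fun _ => ⊤, Or.inl hC.nt⟩
  le_top := fun _ => LD.le_of (fun _ => le_top)
  bot := ⟨fun _ => ⊥, Or.inr (fun _ => rfl)⟩
  bot_le := fun _ => LD.le_of (fun _ => bot_le)

instance : CommMonoid (LD C) where
  mul x y := ⟨fun i => x.v i * y.v i, by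
    rcases x.h with h | h
    · rcases y.h with k | k
      · exact Or.inl (fun i => Good.nz C i (h i) (k i))
      · exact Or.inr (fun i => by rw [k, mul_comm, bot_mul'])
    · exact Or.inr (fun i => by rw [h, bot_mul'])⟩
  mul_assoc x y z := LD.ext (funext fun _ => mul_assoc _ _ _)
  mul_comm x y := LD.ext (funext fun _ => mul_comm _ _)
  one := ⟨fun _ => 1, Or.inl (fun i => one_eq_top (A := C i) ▸ hC.nt i)⟩
  one_mul x := LD.ext (funext fun _ => one_mul _)
  mul_one x := LD.ext (funext fun _ => mul_one _)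

theorem LD.mul_v (x y : LD C) (i : I) : (x * y).v i = x.v i * y.v i := rfl

theorem LD.nz {x : LD C} (h : x ≠ ⊥) (i : I) : x.v i ≠ ⊥ :=
  (x.h.resolve_right (fun k => h (LD.ext (funext k)))) i

theorem LD.smono {x y z : LD C} (hz : z ≠ ⊥) (h : x < y) : x * z < y * z := by
  obtain ⟨i, h1, h2⟩ := h
  refine ⟨i, fun j hj => congrArg (· * z.v j) (h1 j hj), ?_⟩
  exact (Good.lt_or_le C i _ _).resolve_right (fun k => h2.not_ge (hC.can i _ _ _ (LD.nz hz i) k))

open Classical in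
noncomputable def LD.res (x y : LD C) (hy : y ≠ ⊥) : LD C :=
  ⟨fun i => if ∀ j < i, imp (x.v j) (y.v j) * x.v j = y.v j then imp (x.v i) (y.v i) else ⊤,
    Or.inl (fun i => by
      split_ifs
      · exact fun k => LD.nz hy i (le_bot_iff.1 (((adj _ _ _).1 (mul_le_left _ _)).trans k.le))
      · exact hC.nt i)⟩

theorem LD.resA (x y : LD C) (hy : y ≠ ⊥) : LD.res x y hy * x ≤ y := by
  by_contra h
  obtain ⟨i, h1, h2⟩ := (LD.lt_iff _ _).1 (not_le.1 h)
  have key : ∀ j, j < i → imp (x.v j) (y.v j) * x.v j = y.v j := by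
    intro j
    induction j using WellFoundedLT.induction with
    | ind j ih =>
      intro hj
      have := h1 j hj
      rw [LD.mul_v, LD.res] at this
      simp only at this
      rw [if_pos (fun k hk => ih k hk (hk.trans hj))] at this
      exact this.symm
  rw [LD.mul_v, LD.res] at h2
  simp only at h2
  rw [if_pos key] at h2
  exact h2.not_ge (imp_mul_le _ _)

theorem LD.resB (x y z : LD C) (hy : y ≠ ⊥) (h : z * x ≤ y) : z ≤ LD.res x y hy := by
  by_contra hn
  obtain ⟨i, h1, h2⟩ := (LD.lt_iff _ _).1 (not_le.1 hn)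
  simp only [LD.res] at h1 h2
  split_ifs at h2 with k
  · refine h.not_gt ⟨i, fun j hj => ?_, ?_⟩
    · have := h1 j hj
      rw [if_pos (fun l hl => k l (hl.trans hj))] at this
      show y.v j = z.v j * x.v j
      rw [← this, k j hj]
    · exact (Good.lt_or_le C i _ _).resolve_right (fun e => h2.not_ge ((adj _ _ _).1 e))
  · exact not_top_lt h2

open Classical in
noncomputable def LD.imp (x y : LD C) : LD C :=
  if x ≤ y then ⊤ else if hy : y = ⊥ then ⊥ else LD.res x y hy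

theorem LD.adj (z x y : LD C) : z * x ≤ y ↔ z ≤ LD.imp x y := by
  unfold LD.imp
  split_ifs with h hy
  · exact iff_of_true ((LD.le_of (fun i => mul_le_right _ _)).trans h) le_top
  · have hx : x ≠ ⊥ := fun e => h (e ▸ bot_le)
    subst hy
    refine ⟨fun k => ?_, fun k => (LD.le_of (fun i => mul_le_left _ _)).trans k⟩
    by_contra hz
    exact (bot_le.trans_lt (LD.smono hx (not_le.1 hz))).not_ge k
  · have hx : x ≠ ⊥ := fun e => h (e ▸ bot_le)
    refine ⟨LD.resB x y z hy, fun k => le_trans ?_ (LD.resA x y hy)⟩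
    rcases k.lt_or_eq with k | k
    · exact (LD.smono hx k).le
    · rw [k]

noncomputable instance : MTL (LD C) :=
  ofChain _ LD.imp (LD.ext (funext fun _ => one_eq_top)) LD.adj

theorem LD.pi : IsPi (LD C) :=
  pi_of_cancel (fun _ _ _ hz h => not_lt.1 (fun k => (LD.smono hz k).not_ge h))

open Classical in
noncomputable def LD.emb (i : I) (a : C i) : LD C :=
  if h : a = ⊥ then ⊥ else ⟨Function.update (fun _ => ⊤) i a, Or.inl (fun j => by
    by_cases e : j = i
    · subst e; simpa using h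
    · simpa [e] using hC.nt j)⟩

theorem LD.emb_bot (i : I) : LD.emb i (⊥ : C i) = ⊥ := dif_pos rfl

theorem LD.emb_v {i : I} {a : C i} (h : a ≠ ⊥) :
    (LD.emb i a).v = Function.update (fun _ => ⊤) i a := by
  rw [LD.emb, dif_neg h]

theorem LD.emb_self (i : I) (a : C i) : (LD.emb i a).v i = a := by
  by_cases h : a = ⊥
  · rw [h, LD.emb_bot]; rfl
  · simp [LD.emb_v h]

theorem LD.emb_mono {i : I} {a b : C i} (h : a ≤ b) : LD.emb i a ≤ LD.emb i b := by
  by_cases ha : a = ⊥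
  · rw [ha, LD.emb_bot]; exact bot_le
  · have hb : b ≠ ⊥ := fun e => ha (le_bot_iff.1 (e ▸ h))
    refine LD.le_of (fun j => ?_)
    rw [LD.emb_v ha, LD.emb_v hb]
    exact update_le_update_iff'.2 h j

theorem LD.emb_mul (i : I) (a b : C i) : LD.emb i (a * b) = LD.emb i a * LD.emb i b := by
  by_cases ha : a = ⊥
  · rw [ha, bot_mul', LD.emb_bot]; exact (bot_mul' _).symm
  by_cases hb : b = ⊥
  · rw [hb, mul_comm, bot_mul', LD.emb_bot, mul_comm]; exact (bot_mul' _).symm
  ext j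
  rw [LD.mul_v, LD.emb_v ha, LD.emb_v hb, LD.emb_v (Good.nz C i ha hb)]
  by_cases e : j = i
  · subst e; simp
  · simp [e, ← one_eq_top]

theorem LD.emb_imp (i : I) (a b : C i) :
    LD.emb i (MTL.imp a b) = MTL.imp (LD.emb i a) (LD.emb i b) := by
  refine le_antisymm ((MTL.adj _ _ _).1 ?_) ?_
  · rw [← LD.emb_mul]; exact LD.emb_mono (imp_mul_le _ _)
  have hz := imp_mul_le (LD.emb i a) (LD.emb i b)
  generalize MTL.imp (LD.emb i a) (LD.emb i b) = z at hz
  by_cases ha : a = ⊥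
  · refine LD.le_of (fun j => ?_)
    rw [imp_eq_top.2 (ha.le.trans bot_le), LD.emb_v (hC.nt i)]
    simp
  by_contra hn
  have hlt := not_le.1 hn
  by_cases hb : b = ⊥
  · have h1 : LD.emb i a ≠ ⊥ := fun e => ha (by rw [← LD.emb_self i a, e]; rfl)
    rw [hb, LD.emb_bot] at hz
    exact (bot_le.trans_lt (LD.smono h1 hlt)).not_ge hz
  have h1 : MTL.imp a b ≠ ⊥ := fun k =>
    hb (le_bot_iff.1 (((MTL.adj _ _ _).1 (mul_le_left _ _)).trans k.le))
  obtain ⟨j, h2, h3⟩ := (LD.lt_iff _ _).1 hlt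
  rw [LD.emb_v h1] at h2 h3
  obtain rfl : j = i := by
    by_contra e
    simp [e] at h3
  refine hz.not_gt ((LD.lt_iff _ _).2 ⟨j, fun k hk => ?_, ?_⟩)
  · rw [LD.mul_v, ← h2 k hk, LD.emb_v ha, LD.emb_v hb]
    simp [hk.ne, ← one_eq_top]
  · rw [LD.mul_v, LD.emb_self, LD.emb_self]
    rw [Function.update_self] at h3
    exact (Good.lt_or_le C j _ _).resolve_right (fun e => h3.not_ge ((MTL.adj _ _ _).1 e))

theorem LD.taut (i : I) (p : Fm) (h : Taut (LD C) p) : Taut (C i) p := by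
  intro v
  have := h (LD.emb i ∘ v)
  rw [eval_hom (LD.emb i) (LD.emb_bot i) (LD.emb_mul i) (LD.emb_imp i)] at this
  · rw [← LD.emb_self i (eval v p), this]; rfl
  · intro x y
    rcases hC.tot i x y with k | k
    · rw [inf_eq_left.2 k, inf_eq_left.2 (LD.emb_mono k)]
    · rw [inf_eq_right.2 k, inf_eq_right.2 (LD.emb_mono k)]
  · intro x y
    rcases hC.tot i x y with k | k
    · rw [sup_eq_right.2 k, sup_eq_right.2 (LD.emb_mono k)]
    · rw [sup_eq_left.2 k, sup_eq_left.2 (LD.emb_mono k)]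

end Lexi

theorem scc_pi : SCC (fun A _ => IsPi A) := by
  let I := {p : Fm // ∃ (B : Type) (_ : MTL B), IsPi B ∧ ¬ Taut B p}
  have h : ∀ i : I, ∃ (C : Type) (_ : MTL C), IsPi C ∧ (∀ x y : C, x ≤ y ∨ y ≤ x) ∧
      ¬ Taut C i.1 := fun ⟨p, _, _, h1, h2⟩ => chain_of_not_taut h1 p h2
  choose C inst h1 h2 h3 using h
  obtain ⟨lo, wf⟩ := exists_wellOrder I
  have good : Good C := ⟨h2, fun i => cancel_of_pi (h1 i) (h2 i), fun i e => h3 i (fun v =>
    top_le_iff.1 (e ▸ bot_le))⟩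
  refine ⟨LD C, inferInstance, LD.pi, le_total, fun p => ⟨fun h => h _ LD.pi, fun h B _ hB => ?_⟩⟩
  by_contra hn
  exact h3 ⟨p, B, _, hB, hn⟩ (LD.taut _ p h)

end Pool.Agent.H.MP_339e98_lc
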